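import Pool.Agent.W516.KCM.Defs

/-!
KCM-EMB: evaluation at the embeddings.
-/

set_option autoImplicit false

namespace Pool.Agent.W290.KCM

open Pool.Agent.W516.KCM
open scoped TensorProduct

theorem ev_tmul (k E : Type) [Field k] [Field E] [Algebra k E] [Algebra k ℂ]
    (τ : E →ₐ[k] ℂ) (r : ℂ) (a : E) : ev k E τ (r ⊗ₜ[k] a) = r * τ a := by
  unfold ev
  rw [Algebra.TensorProduct.lift_tmul]
  rfl

/-- all evaluations -/
noncomputable def Phi (k E : Type) [Field k] [Field E] [Algebra k E] [Algebra k ℂ] :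
    ℂ ⊗[k] E →ₗ[ℂ] ((E →ₐ[k] ℂ) → ℂ) :=
  LinearMap.pi fun τ => (ev k E τ).toLinearMap

theorem Phi_apply (k E : Type) [Field k] [Field E] [Algebra k E] [Algebra k ℂ]
    (y : ℂ ⊗[k] E) (τ : E →ₐ[k] ℂ) : Phi k E y τ = ev k E τ y := rfl

theorem Phi_surj (k E : Type) [Field k] [CharZero k] [Field E] [Algebra k E]
    [FiniteDimensional k E] [Algebra k ℂ] : Function.Surjective (Phi k E) := by
  classical
  rw [← LinearMap.range_eq_top]
  by_contra hne
  obtain ⟨f, hf0, hf⟩ := Submodule.exists_le_ker_of_lt_top _ (lt_top_iff_ne_top.2 hne)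
  apply hf0
  have hli := linearIndependent_toLinearMap k E ℂ
  have hsum : ∑ τ : E →ₐ[k] ℂ, f (Pi.single τ 1) • τ.toLinearMap = 0 := by
    apply LinearMap.ext
    intro a
    rw [LinearMap.sum_apply, LinearMap.zero_apply]
    have h1 : Phi k E (1 ⊗ₜ[k] a) ∈ LinearMap.ker f := hf ⟨_, rfl⟩
    rw [LinearMap.mem_ker] at h1
    have h2 : Phi k E (1 ⊗ₜ[k] a) = ∑ τ : E →ₐ[k] ℂ, (τ a) • (Pi.single τ (1 : ℂ)) := by
      funext τ
      rw [Phi_apply, ev_tmul, one_mul, Finset.sum_apply]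
      simp [Pi.single_apply]
    rw [h2, map_sum] at h1
    rw [← h1]
    refine Finset.sum_congr rfl fun τ _ => ?_
    rw [map_smul, LinearMap.smul_apply, AlgHom.toLinearMap_apply, smul_eq_mul, smul_eq_mul,
      mul_comm]
  have h3 := Fintype.linearIndependent_iff.1 hli (fun τ => f (Pi.single τ 1)) hsum
  apply LinearMap.pi_ext
  intro τ x
  have h4 : (Pi.single τ x : (E →ₐ[k] ℂ) → ℂ) = x • Pi.single τ 1 := by
    rw [← Pi.single_smul, smul_eq_mul, mul_one]
  rw [h4, map_smul, h3 τ, smul_zero, LinearMap.zero_apply]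

theorem Phi_inj (k E : Type) [Field k] [CharZero k] [Field E] [Algebra k E]
    [FiniteDimensional k E] [Algebra k ℂ] : Function.Injective (Phi k E) := by
  classical
  apply (LinearMap.injective_iff_surjective_of_finrank_eq_finrank ?_).2 (Phi_surj k E)
  rw [Module.finrank_fintype_fun_eq_card, Module.finrank_baseChange, AlgHom.card]

theorem T_EMB : Pool.Agent.W516.KCM.S_EMB := by
  classical
  intro k E _ _ _ _ _ _
  constructor
  · intro S
    obtain ⟨ε, hε⟩ := Phi_surj k E (fun τ => if τ ∈ S then 1 else 0)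
    refine ⟨ε, ?_, ?_⟩
    · intro τ hτ
      rw [← Phi_apply, hε]
      exact if_pos hτ
    · intro τ hτ
      rw [← Phi_apply, hε]
      exact if_neg hτ
  · intro y hy
    apply Phi_inj k E
    rw [map_zero]
    funext τ
    rw [Phi_apply, hy τ]
    rfl

end Pool.Agent.W290.KCM
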